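import Pool.Agent.L7h76.RA.Div
import Pool.Agent.N537.RS.HDim

/-!
Orthonormal bases of spherical harmonics (parts `S_MULT`, `S_BAS` of the project RA).
-/

set_option autoImplicit false

open MeasureTheory Set Filter Topology

namespace Pool.Agent.L7h73.RA

open MvPolynomial Pool.Agent.L7h98.RA Pool.Agent.L7h76.RA Pool.Agent.R117.RL Pool.Agent.N537.RS
  Pool.Agent.N537.RS.HS Pool.Agent.Helper477.HarmInv

/-! ### the Fischer decomposition -/

theorem rsq_RR (a : ℕ) : rsq a = RR a := by
  unfold rsq RR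
  exact Finset.sum_congr rfl fun i _ => (pow_two _).symm

theorem decomp {a : ℕ} (ha : 0 < a) {k : ℕ} {p : MvPolynomial (Fin a) ℝ}
    (hp : p.IsHomogeneous (k + 2)) :
    ∃ h q : MvPolynomial (Fin a) ℝ, h ∈ Hpoly a (k + 2) ∧ q.IsHomogeneous k ∧
      p = h + RR a * q := by
  have := finite_homogeneous (n := a) k
  let f : homogeneousSubmodule (Fin a) ℝ k →ₗ[ℝ] homogeneousSubmodule (Fin a) ℝ k :=
    { toFun := fun q => ⟨D a (rsq a * q.1), D_mem_homogeneous (rsq_mul_mem_homogeneous q.2)⟩
      map_add' := fun a b => by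
        apply Subtype.ext
        simp [mul_add]
      map_smul' := fun c a => by
        apply Subtype.ext
        simp }
  have hinj : Function.Injective f := by
    rw [injective_iff_map_eq_zero]
    intro q hq
    have h5 : D a (rsq a * q.1) = 0 := congrArg Subtype.val hq
    exact Subtype.ext (D_rsq_mul_eq_zero ha q.1 h5)
  have hsurj : Function.Surjective f := LinearMap.injective_iff_surjective.1 hinj
  have hp' : p ∈ homogeneousSubmodule (Fin a) ℝ (k + 2) := (mem_homogeneousSubmodule _ _).2 hp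
  obtain ⟨q, hq⟩ := hsurj ⟨D a p, D_mem_homogeneous hp'⟩
  have hq' : D a (rsq a * q.1) = D a p := congrArg Subtype.val hq
  refine ⟨p - rsq a * q.1, q.1, ⟨?_, ?_⟩, (mem_homogeneousSubmodule _ _).1 q.2, ?_⟩
  · exact Submodule.sub_mem _ hp' (rsq_mul_mem_homogeneous q.2)
  · rw [SetLike.mem_coe, LinearMap.mem_ker]
    show D a (p - rsq a * q.1) = 0
    rw [map_sub, hq', sub_self]
  · rw [rsq_RR]; ring

/-! ### orthogonality and definiteness -/

theorem key {a : ℕ} (ha : 1 ≤ a) {l m : ℕ} {p q : MvPolynomial (Fin a) ℝ}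
    (hp : p.IsHomogeneous l) (hq : q.IsHomogeneous m) (hh : Lap a q = 0) :
    ∑ i, cS (pderiv i p * pderiv i q) = ((l : ℝ) + m + a - 2) * m * cS (p * q) := by
  rcases Nat.eq_zero_or_pos m with h0 | h0
  · have h2 : ∀ i, MvPolynomial.pderiv i q = 0 := by
      intro i
      rw [h0, ← MvPolynomial.totalDegree_zero_iff_isHomogeneous,
        MvPolynomial.totalDegree_eq_zero_iff_eq_C] at hq
      rw [hq, MvPolynomial.pderiv_C]
    rw [h0]
    simp [h2, cS_zero]
  · have h1 : ∀ i, cS (pderiv i p * pderiv i q) + cS (p * pderiv i (pderiv i q)) =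
        ((l : ℝ) + m + a - 2) * cS (p * (X i * pderiv i q)) := by
      intro i
      have h2 := s_DIV a ha (l + (m - 1)) (p * pderiv i q) (hp.mul hq.pderiv) i
      rw [MvPolynomial.pderiv_mul, cS_add] at h2
      rw [h2]
      have h3 : ((l + (m - 1) : ℕ) : ℝ) - 1 + a = (l : ℝ) + m + a - 2 := by
        push_cast [Nat.cast_sub h0]
        ring
      rw [h3]
      congr 2
      ring
    have h4 : ∑ i, cS (p * pderiv i (pderiv i q)) = 0 := by
      rw [← cS_sum, ← Finset.mul_sum]
      have h5 : ∑ i, pderiv i (pderiv i q) = 0 := by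
        simpa [Lap, LinearMap.sum_apply] using hh
      rw [h5, mul_zero, cS_zero]
    have h6 : ∑ i, cS (p * (X i * pderiv i q)) = m * cS (p * q) := by
      rw [← cS_sum, ← Finset.mul_sum, hq.sum_X_mul_pderiv, ← cS_smul]
      congr 1
      rw [mul_smul_comm, Nat.cast_smul_eq_nsmul]
    have h7 := Finset.sum_congr (rfl : (Finset.univ : Finset (Fin a)) = Finset.univ)
      (fun i _ => h1 i)
    rw [Finset.sum_add_distrib, h4, add_zero, ← Finset.mul_sum, h6] at h7
    rw [h7]
    ring

theorem orth {a : ℕ} (ha : 3 ≤ a) {l m : ℕ} {p q : MvPolynomial (Fin a) ℝ}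
    (hp : p.IsHomogeneous l) (hp' : Lap a p = 0) (hq : q.IsHomogeneous m) (hq' : Lap a q = 0)
    (hlm : l ≠ m) : cS (p * q) = 0 := by
  have h1 := key (by omega) hp hq hq'
  have h2 := key (by omega) hq hp hp'
  have h3 : ∑ i, cS (pderiv i p * pderiv i q) = ∑ i, cS (pderiv i q * pderiv i p) :=
    Finset.sum_congr rfl fun i _ => by rw [mul_comm]
  rw [h1, h2, mul_comm q p] at h3
  have h4 : ((l : ℝ) + m + a - 2) * ((m : ℝ) - l) * cS (p * q) = 0 := by
    linear_combination h3
  have h5 : (0 : ℝ) < (l : ℝ) + m + a - 2 := by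
    have : (3 : ℝ) ≤ a := by exact_mod_cast ha
    have h6 : (0 : ℝ) ≤ l := Nat.cast_nonneg l
    have h7 : (0 : ℝ) ≤ m := Nat.cast_nonneg m
    linarith
  have h6 : ((m : ℝ) - l) ≠ 0 := by
    intro h
    apply hlm
    have : (m : ℝ) = l := by linarith
    exact_mod_cast this.symm
  rcases mul_eq_zero.1 h4 with h | h
  · rcases mul_eq_zero.1 h with h | h
    · exact absurd h h5.ne'
    · exact absurd h h6
  · exact h

theorem cS_nonneg {a : ℕ} (p : MvPolynomial (Fin a) ℝ) : 0 ≤ cS (p * p) := by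
  unfold cS
  refine integral_nonneg fun ω => ?_
  simp only [evl_mul]
  exact mul_self_nonneg _

theorem cS_definite {a : ℕ} (ha : 1 ≤ a) {l : ℕ} {p : MvPolynomial (Fin a) ℝ}
    (hp : p.IsHomogeneous l) (h : cS (p * p) = 0) : p = 0 := by
  have hc : Continuous fun ω : Metric.sphere (0 : E a) 1 => evl (p * p) (ω : E a) :=
    (evl_contDiff (p * p)).continuous.comp continuous_subtype_val
  have h0 : 0 ≤ fun ω : Metric.sphere (0 : E a) 1 => evl (p * p) (ω : E a) := by
    intro ω
    show 0 ≤ evl (p * p) (ω : E a)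
    rw [evl_mul]
    exact mul_self_nonneg _
  have h1 := (integral_eq_zero_iff_of_nonneg h0 (cS_int (p * p))).1 h
  have h2 := (Continuous.ae_eq_iff_eq (volume : Measure (E a)).toSphere hc continuous_const).1
    (show (fun ω : Metric.sphere (0 : E a) 1 => evl (p * p) (ω : E a)) =ᵐ[
      (volume : Measure (E a)).toSphere] fun _ => (0 : ℝ) from h1)
  have h3 : ∀ ω : E a, ‖ω‖ = 1 → evl p ω = 0 := by
    intro ω hω
    have h4 := congrFun h2 ⟨ω, by simpa using hω⟩
    have h5 : evl p ω * evl p ω = 0 := by rw [← evl_mul]; exact h4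
    exact mul_self_eq_zero.1 h5
  refine evl_ext fun x => ?_
  have h6 : evl (0 : MvPolynomial (Fin a) ℝ) x = 0 := by simp [evl]
  rw [h6]
  obtain ⟨c, ω, hω, rfl⟩ : ∃ (c : ℝ) (ω : E a), ‖ω‖ = 1 ∧ x = c • ω := by
    by_cases hx : x = 0
    · exact ⟨0, EuclideanSpace.single ⟨0, by omega⟩ 1, by simp, by rw [hx, zero_smul]⟩
    · have hn : ‖x‖ ≠ 0 := norm_ne_zero_iff.2 hx
      refine ⟨‖x‖, ‖x‖⁻¹ • x, ?_, ?_⟩
      · rw [norm_smul, norm_inv, norm_norm, inv_mul_cancel₀ hn]
      · rw [smul_smul, mul_inv_cancel₀ hn, one_smul]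
  rw [evl_scale hp, h3 ω hω, mul_zero]

/-! ### multiplicities -/

theorem s_MULT : S_MULT := by
  classical
  intro a ha B l Y hY q
  obtain ⟨hfd, hfr, _⟩ := HD.t_HDIM a ha q
  rw [← hfr]
  let J := {α : Fin B // l α = q}
  let y : J → Hpoly a q := fun α => ⟨Y α.1, ⟨by
      have := hY.hom α.1
      rw [α.2] at this
      exact (mem_homogeneousSubmodule _ _).2 this, LinearMap.mem_ker.2 (hY.harm α.1)⟩⟩
  have hli : LinearIndependent ℝ y := by
    rw [Fintype.linearIndependent_iff]
    intro g hg α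
    have h1 : ∑ β : J, g β • Y β.1 = 0 := by
      have := congrArg (fun x : Hpoly a q => (x : MvPolynomial (Fin a) ℝ)) hg
      simpa using this
    have h2 : cS ((∑ β : J, g β • Y β.1) * Y α.1) = g α := by
      rw [Finset.sum_mul, cS_sum, Finset.sum_eq_single α]
      · rw [smul_mul_assoc, cS_smul, hY.orth, if_pos rfl, mul_one]
      · intro β _ hβ
        rw [smul_mul_assoc, cS_smul, hY.orth, if_neg, mul_zero]
        exact fun h => hβ (Subtype.ext h)
      · intro h; exact absurd (Finset.mem_univ _) h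
    rw [h1, zero_mul, cS_zero] at h2
    exact h2.symm
  have h3 := hli.fintype_card_le_finrank
  rwa [Fintype.card_subtype] at h3

/-! ### bases -/

theorem exists_basis {a : ℕ} (ha : 3 ≤ a) (q : ℕ) :
    ∃ e : Fin (Module.finrank ℝ (Hpoly a q)) → MvPolynomial (Fin a) ℝ, (∀ i, e i ∈ Hpoly a q) ∧
      (∀ i j, cS (e i * e j) = if i = j then 1 else 0) ∧
      Hpoly a q ≤ Submodule.span ℝ (Set.range e) := by
  obtain ⟨hfd, hfr, hpos⟩ := HD.t_HDIM a ha q
  rw [← hfr] at hpos
  have hhom : ∀ p : Hpoly a q, (p : MvPolynomial (Fin a) ℝ).IsHomogeneous q := fun p =>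
    (MvPolynomial.mem_homogeneousSubmodule _ _).1 p.2.1
  obtain ⟨e, he, _⟩ := gen (H := Hpoly a q)
    (fun x y : Hpoly a q => cS ((x : MvPolynomial (Fin a) ℝ) * (y : MvPolynomial (Fin a) ℝ)))
    (fun x y => by
      show cS ((y : MvPolynomial (Fin a) ℝ) * (x : MvPolynomial (Fin a) ℝ)) =
        cS ((x : MvPolynomial (Fin a) ℝ) * (y : MvPolynomial (Fin a) ℝ))
      rw [mul_comm])
    (fun x y z => by
      show cS (((x + y : Hpoly a q) : MvPolynomial (Fin a) ℝ) * (z : MvPolynomial (Fin a) ℝ)) = _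
      rw [Submodule.coe_add, add_mul, cS_add])
    (fun c x y => by
      show cS (((c • x : Hpoly a q) : MvPolynomial (Fin a) ℝ) * (y : MvPolynomial (Fin a) ℝ)) = _
      rw [Submodule.coe_smul, smul_mul_assoc, cS_smul])
    (fun x => cS_nonneg _)
    (fun p hp => Subtype.ext (cS_definite (by omega) (hhom p) hp)) hpos
  refine ⟨fun i => (e i : MvPolynomial (Fin a) ℝ), fun i => (e i).2, he, ?_⟩
  have hli : LinearIndependent ℝ e := by
    rw [Fintype.linearIndependent_iff]
    intro g hg i
    have h1 : ∑ j, g j • (e j : MvPolynomial (Fin a) ℝ) = 0 := by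
      have := congrArg (fun x : Hpoly a q => (x : MvPolynomial (Fin a) ℝ)) hg
      simpa using this
    have h2 : cS ((∑ j, g j • (e j : MvPolynomial (Fin a) ℝ)) * (e i : MvPolynomial (Fin a) ℝ)) =
        g i := by
      rw [Finset.sum_mul, cS_sum, Finset.sum_eq_single i]
      · rw [smul_mul_assoc, cS_smul]
        have := he i i
        simp only [if_true] at this
        rw [this, mul_one]
      · intro j _ hj
        rw [smul_mul_assoc, cS_smul]
        have := he j i
        rw [if_neg hj] at this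
        rw [this, mul_zero]
      · intro h; exact absurd (Finset.mem_univ _) h
    rw [h1, zero_mul, cS_zero] at h2
    exact h2.symm
  have hspan : Submodule.span ℝ (Set.range e) = ⊤ :=
    hli.span_eq_top_of_card_eq_finrank' (Fintype.card_fin _)
  intro p hp
  have h1 : (⟨p, hp⟩ : Hpoly a q) ∈ Submodule.span ℝ (Set.range e) := by
    rw [hspan]; trivial
  have h2 := Submodule.mem_map_of_mem (f := (Hpoly a q).subtype) h1
  rw [Submodule.map_span, ← Set.range_comp] at h2
  exact h2

theorem s_BAS : S_BAS := by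
  classical
  intro a ha L
  choose e he1 he2 he3 using fun q => exists_basis ha q
  let I := (q : Fin (L + 1)) × Fin (Module.finrank ℝ (Hpoly a (q : ℕ)))
  let φ : Fin (Fintype.card I) ≃ I := (Fintype.equivFin I).symm
  let l : Fin (Fintype.card I) → ℕ := fun α => (φ α).1
  let Y : Fin (Fintype.card I) → MvPolynomial (Fin a) ℝ := fun α => e (φ α).1 (φ α).2
  have hYh : ∀ α, (Y α).IsHomogeneous (l α) := fun α =>
    (mem_homogeneousSubmodule _ _).1 (he1 _ _).1
  have hYl : ∀ α, Lap a (Y α) = 0 := fun α => LinearMap.mem_ker.1 (he1 _ _).2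
  refine ⟨Fintype.card I, l, Y, ⟨hYh, hYl, ?_⟩, ?_⟩
  · intro α β
    by_cases hab : (φ α).1 = (φ β).1
    · show cS (e (φ α).1 (φ α).2 * e (φ β).1 (φ β).2) = _
      have key2 : ∀ x y : I, x.1 = y.1 → cS (e x.1 x.2 * e y.1 y.2) = if x = y then 1 else 0 := by
        rintro ⟨q, i⟩ ⟨q', j⟩ h
        obtain rfl : q = q' := h
        rw [he2]
        by_cases h' : i = j
        · subst h'; simp
        · rw [if_neg h', if_neg]
          intro h''
          exact h' (by cases h''; rfl)
      rw [key2 _ _ hab]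
      simp [φ.injective.eq_iff]
    · rw [orth ha (hYh α) (hYl α) (hYh β) (hYl β) (fun h => hab (Fin.ext h)), if_neg]
      rintro rfl
      exact hab rfl
  · -- spanning
    set V : Submodule ℝ (MvPolynomial (Fin a) ℝ) := Submodule.span ℝ (Set.range
      fun x : Fin (Fintype.card I) × Fin (L + 1) => RR a ^ (x.2 : ℕ) * Y x.1) with hV
    have hH : ∀ q j, q + 2 * j ≤ L → ∀ p ∈ Hpoly a q, RR a ^ j * p ∈ V := by
      intro q j hqj p hp
      have h1 := he3 q hp
      have h2 : Submodule.map (LinearMap.mulLeft ℝ (RR a ^ j)) (Submodule.span ℝ (Set.range (e q)))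
          ≤ V := by
        rw [Submodule.map_span, Submodule.span_le]
        rintro _ ⟨_, ⟨i, rfl⟩, rfl⟩
        apply Submodule.subset_span
        refine ⟨(φ.symm ⟨⟨q, by omega⟩, i⟩, ⟨j, by omega⟩), ?_⟩
        show RR a ^ j * e (φ (φ.symm _)).1 (φ (φ.symm _)).2 = RR a ^ j * e q i
        rw [Equiv.apply_symm_apply]
      exact h2 (Submodule.mem_map_of_mem h1)
    have hC : ∀ q, ∀ j, q + 2 * j ≤ L → ∀ p : MvPolynomial (Fin a) ℝ, p.IsHomogeneous q →
        RR a ^ j * p ∈ V := by
      intro q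
      induction q using Nat.strong_induction_on with
      | _ q ih =>
        intro j hqj p hp
        by_cases hq : q < 2
        · refine hH q j hqj p ⟨(mem_homogeneousSubmodule _ _).2 hp, LinearMap.mem_ker.2 ?_⟩
          exact D_eq_zero_of_homogeneous hq ((mem_homogeneousSubmodule _ _).2 hp)
        · obtain ⟨k, rfl⟩ : ∃ k, q = k + 2 := ⟨q - 2, by omega⟩
          obtain ⟨h, q', hh, hq', rfl⟩ := decomp (by omega) hp
          have h1 : RR a ^ j * (h + RR a * q') = RR a ^ j * h + RR a ^ (j + 1) * q' := by ring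
          rw [h1]
          exact V.add_mem (hH _ j hqj h hh) (ih k (by omega) (j + 1) (by omega) q' hq')
    intro p hp
    have hpV : p ∈ V := by
      rw [← MvPolynomial.sum_homogeneousComponent p]
      refine V.sum_mem fun i hi => ?_
      have h1 := hC i 0 (by rw [Finset.mem_range] at hi; omega) _
        (homogeneousComponent_isHomogeneous i p)
      simpa using h1
    rw [hV, Submodule.mem_span_range_iff_exists_fun] at hpV
    obtain ⟨c, hc⟩ := hpV
    refine ⟨fun α i => if h : i < L + 1 then c (α, ⟨i, h⟩) else 0, ?_⟩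
    rw [← hc, Fintype.sum_prod_type]
    refine Finset.sum_congr rfl fun α _ => ?_
    rw [Finset.sum_range]
    refine Finset.sum_congr rfl fun i _ => ?_
    simp only [dif_pos i.2]

end Pool.Agent.L7h73.RA
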